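import Pool.Agent.W966.Vg.Hyper2
import Pool.Agent.W334.VH.Res

set_option autoImplicit false

/-!
# Hypersurfaces which are accepted nondeterministically are approximatively computable

Definitions: `LF`, `NTree`, `NTree.Acc`, `NTree.Accepts`, `NSComp`, `SLComp`, `InClosure` are in
`Pool.Agent.W966.Vg.Defs`.
-/

namespace Pool.Agent.Results.MP_641cb6_lc.Hypersurfaces

open MvPolynomial Pool.Agent.W966.Vg

/-- Let `K` be an algebraically closed field of characteristic `0` and `f ≠ 0` a polynomial of
degree `d` in `n` variables over `K`. Let `t` be a nondeterministic algebraic computation tree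
(guesses, tests for `0`, choices, linear combinations are free); consider the set `A` of all
`x ∈ K ^ n` which it can accept with at most `L` multiplications and divisions. Suppose that

* `A` contains all `x` with `f x = 0` and `g x ≠ 0`, for some `g` without common factor with `f`
  (so almost all points of the hypersurface `f = 0` are accepted), and
* `A` is contained in the zero set of some polynomial `h ≠ 0` of any degree (so `A` is not dense;
  nothing else is assumed about the accepted points outside of the hypersurface).

For example, this holds with `g = 1`, `h = f` if `t` decides whether `f x = 0`. Then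

(1) `f` lies in the Zariski closure of the set of polynomials which can be computed with
`d L d (d - 1) / 2 + d (d + 1) (d + 2) / 2` multiplications, additions and multiplications by
constants being free;

(2) `f` lies in the Zariski closure of the set of polynomials which can be computed with at most
`(M + 1) (4 (n + M) + 1)` additions, subtractions and multiplications, where
`M = (L + 3) d ^ 3`. -/
theorem result {K : Type} [Field K] [IsAlgClosed K] [CharZero K] (n L : ℕ) (t : NTree K (Fin n))
    (f g h : MvPolynomial (Fin n) K) (hf : f ≠ 0) (hfg : IsRelPrime f g) (hh : h ≠ 0) (d : ℕ)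
    (hd : f.totalDegree = d)
    (H1 : ∀ x : Fin n → K, eval x f = 0 → eval x g ≠ 0 → t.Accepts x L)
    (H2 : ∀ x : Fin n → K, t.Accepts x L → eval x h = 0) :
    InClosure {g : Unit → MvPolynomial (Fin n) K | NSComp K (Fin n) Unit
      (d * L * (d * (d - 1) / 2) + d * ((d + 1) * (d + 2) / 2)) g} (fun _ => f) ∧
    ∀ M : ℕ, M = (L + 3) * d ^ 3 →
      InClosure {g : Unit → MvPolynomial (Fin n) K | SLComp K (Fin n) Unit
        ((M + 1) * (4 * (n + M) + 1)) g} (fun _ => f) := by
  subst hd
  have h1 := comp_ns Pool.Agent.W334.VHRes.main t f g h hf hfg hh H1 H2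
  refine ⟨h1, ?_⟩
  rintro M rfl
  have h2 : f.totalDegree * L * (f.totalDegree * (f.totalDegree - 1) / 2) +
      f.totalDegree * ((f.totalDegree + 1) * (f.totalDegree + 2) / 2) ≤
      (L + 3) * f.totalDegree ^ 3 := by
    generalize f.totalDegree = d
    rcases Nat.eq_zero_or_pos d with rfl | hd
    · simp
    · have e1 : d * (d - 1) / 2 ≤ d ^ 2 := by
        refine (Nat.div_le_self _ _).trans ?_
        rw [pow_two]
        exact Nat.mul_le_mul_left _ (Nat.sub_le _ _)
      have e2 : (d + 1) * (d + 2) / 2 ≤ 3 * d ^ 2 := by
        rw [Nat.div_le_iff_le_mul_add_pred (by norm_num)]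
        nlinarith
      calc d * L * (d * (d - 1) / 2) + d * ((d + 1) * (d + 2) / 2) ≤
          d * L * d ^ 2 + d * (3 * d ^ 2) :=
            Nat.add_le_add (Nat.mul_le_mul_left _ e1) (Nat.mul_le_mul_left _ e2)
        _ = (L + 3) * d ^ 3 := by ring
  have h3 := closure_total h2 h1
  rwa [Fintype.card_unit, Fintype.card_fin] at h3

end Pool.Agent.Results.MP_641cb6_lc.Hypersurfaces
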