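import Mathlib
import Pool.Agent.W964.Wd.Machine
import Pool.Agent.W964.Wd.Hn.Main
import Pool.Agent.W964.Wd.Gen.Asym

/-!
P versus NP over the real and the complex numbers for ideal parallel random access machines whose
cells contain field elements (priority concurrent writing, concurrent searching of lists of cells,
arbitrary instruction set, unbounded memory, different programs for different processors):
`2 ^ ((1 - ε) n)` processors do not decide in `o (n / log n)` steps whether a system of polynomial
equations in `n` unknowns has a solution.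
-/

set_option autoImplicit false

open Finset Filter MvPolynomial Pool.Agent.W964.Wd

namespace Pool.Agent.Results.MP_641cb6_lc.ParallelMachines

/-- 1. For every `ε > 0` and `K` there is `C > 0` such that the following holds for `n ≥ 2`
unknowns, `T ≥ 1` steps, degree `C T log n ≤ w ≤ n` and `M ≥ n 2 ^ w` equations. Let `F` be a field
(for instance `ℝ` or `ℂ`) and let `R` be a randomized parallel machine over `F` with at most
`2 ^ ((1 - ε) n)` processors and lists of length at most `2 ^ (K n)` whose input is a system of `M`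
polynomials in `n` variables, every coefficient of every polynomial being the content of a cell.
Then there are `M` polynomials with integer coefficients, of degree at most `w` and with at most
`2 ^ w` terms each, such that after `T` steps `R` gives the right answer to the question whether
they have a common zero in `F ^ n` with probability at most `1 / 2 + 2 ^ (-w / C)`.

2. For `0 < δ < 2`, every `K` and every number of steps `T n = o (n / log n)` there are a degree
`w n = O (T n log n) = o (n)` and a number of equations `M n ≤ n ^ O(T n) = 2 ^ o(n)` such that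
randomized parallel machines over any field with at most `(2 - δ) ^ n` times a polynomial in `M n`
processors and lists of length at most `2 ^ (K n)` do not decide in `T n` steps with error
probability at most `1 / 3` whether `M n` polynomials in `n` variables with integer coefficients, of
degree at most `w n` and with at most `2 ^ (w n)` terms, have a common zero, for all large `n`. -/
theorem result :
    (∀ (ε : ℝ) (K : ℕ), 0 < ε → ∃ C : ℝ, 0 < C ∧
      ∀ n T w M : ℕ, 2 ≤ n → 1 ≤ T → C * (T * Real.log n) ≤ w → w ≤ n → n * 2 ^ w ≤ M →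
      ∀ (F : Type) [Field F] (P : ℕ) (R : RandMachine F (Fin M × (Fin n →₀ ℕ)) P),
        (P : ℝ) ≤ 2 ^ ((1 - ε) * n) → R.Lists (2 ^ (K * n)) →
        ∃ f : Fin M → MvPolynomial (Fin n) ℤ,
          (∀ c, (f c).totalDegree ≤ w ∧ (f c).support.card ≤ 2 ^ w) ∧
          R.success T (fun j => ((coeff j.2 (f j.1) : ℤ) : F))
            (∃ z : Fin n → F, ∀ c, aeval z (f c) = 0) ≤
            1 / 2 + (2 : ℝ) ^ (-((w : ℝ) / C))) ∧
    (∀ (δ : ℝ) (K : ℕ), 0 < δ → δ < 2 → ∀ T : ℕ → ℕ, (∀ n, 1 ≤ T n) →
      (fun n : ℕ => (T n : ℝ) * Real.log n) =o[atTop] (fun n : ℕ => (n : ℝ)) →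
      ∃ w M : ℕ → ℕ, (∃ C : ℝ, ∀ n, 2 ≤ n → (w n : ℝ) ≤ C * (T n * Real.log n) ∧
          (M n : ℝ) ≤ (n : ℝ) ^ (C * T n)) ∧
        ∀ c e : ℕ, ∀ᶠ n : ℕ in atTop,
          ∀ (F : Type) [Field F] (P : ℕ) (R : RandMachine F (Fin (M n) × (Fin n →₀ ℕ)) P),
            (P : ℝ) ≤ (2 - δ) ^ n * (c * (M n : ℝ) ^ e) → R.Lists (2 ^ (K * n)) →
            ∃ f : Fin (M n) → MvPolynomial (Fin n) ℤ,
              (∀ c, (f c).totalDegree ≤ w n ∧ (f c).support.card ≤ 2 ^ w n) ∧
              R.success (T n) (fun j => ((coeff j.2 (f j.1) : ℤ) : F))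
                (∃ z : Fin n → F, ∀ c, aeval z (f c) = 0) < 2 / 3) := by
  refine ⟨fun ε K hε => hn_rand ε hε K, fun δ K hδ hδ2 T hT hTo => ?_⟩
  obtain ⟨ε, hε, H⟩ := asym δ hδ hδ2
  obtain ⟨C, hC, HC⟩ := hn_rand ε hε K
  obtain ⟨w, hw, hA⟩ := H C hC T hT hTo
  refine ⟨w, fun n => n * 2 ^ w n, hw, fun c e => ?_⟩
  filter_upwards [hA c e] with n hn
  obtain ⟨h1, h2, h3, h4, _, h6⟩ := hn
  intro F _ P R hP hR
  obtain ⟨f, hf1, hf2⟩ := HC n (T n) (w n) (n * 2 ^ w n) h1 (hT n) h2 h3 le_rfl F P R
    (hP.trans h4) hR
  refine ⟨f, hf1, lt_of_le_of_lt hf2 ?_⟩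
  linarith

end Pool.Agent.Results.MP_641cb6_lc.ParallelMachines
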